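import Mathlib
import Pool.Agent.X25.MG.Pairs

/-! Montgomery's estimate for almost all pairs (modulus, class), `√x ≤ q ≤ x`: the characters of conductor at most
`x/q` are the only obstruction; for prime moduli this is only the principal character. -/

set_option autoImplicit false

namespace Pool.Agent.Results.MP_848d44_nt.SmallConductorsOnly
open Finset

/-- `ψ(x)` -/
noncomputable def psi (x : ℝ) : ℝ := ∑ n ∈ Icc 1 ⌊x⌋₊, ArithmeticFunction.vonMangoldt n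

/-- `ψ(x,q,a)` for `0 ≤ a < q` -/
noncomputable def psiAP (x : ℝ) (q a : ℕ) : ℝ :=
  ∑ n ∈ (Icc 1 ⌊x⌋₊).filter (fun n => n % q = a), ArithmeticFunction.vonMangoldt n

/-- `ψ(x,χ) = ∑_{n ≤ x} Λ(n) χ(n)` -/
noncomputable def psiChi (x : ℝ) {q : ℕ} (χ : DirichletCharacter ℂ q) : ℂ :=
  ∑ n ∈ Icc 1 ⌊x⌋₊, ((ArithmeticFunction.vonMangoldt n : ℝ) : ℂ) * χ (n : ZMod q)

open Classical in
/-- the contribution `φ(q)⁻¹ ∑_{cond χ ≤ R} conj χ(a) ψ(x,χ)` of the characters modulo `q` of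
conductor at most `R` to `ψ(x,q,a)` -/
noncomputable def smallPart (x : ℝ) (q R a : ℕ) : ℂ :=
  (1 / (Nat.totient q : ℂ)) * ∑ χ ∈ (univ : Finset (DirichletCharacter ℂ q)).filter
    (fun χ => χ.conductor ≤ R), (starRingEnd ℂ) (χ (a : ZMod q)) * psiChi x χ

/-- `x^(1/2+ε) / q^(1/2)` -/
noncomputable def bound (ε x : ℝ) (q : ℕ) : ℝ := x ^ (1 / 2 + ε) / √(q : ℝ)

open Classical in
/-- the number of the pairs `(q, a)`, `q ∈ S`, `0 ≤ a < q`, `(a, q) = 1`, with the property `E` -/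
noncomputable def pairs (S : Finset ℕ) (E : ℕ → ℕ → Prop) : ℝ :=
  ∑ q ∈ S, ((((range q).filter (fun a => a.Coprime q ∧ E q a)).card : ℕ) : ℝ)

/-- the primes in `(Q/2, Q]` -/
noncomputable def primes (Q : ℝ) : Finset ℕ := (Ioc ⌊Q / 2⌋₊ ⌊Q⌋₊).filter Nat.Prime

theorem result :
    -- all moduli
    (∀ ε : ℝ, 0 < ε → ∃ x₀ : ℝ, ∀ x : ℝ, x₀ ≤ x → ∀ K R : ℕ, 1 ≤ K → (K : ℝ) ≤ x → x ≤ K * R →
      pairs (Ioc K (2 * K)) (fun q a => bound ε x q < ‖(psiAP x q a : ℂ) - smallPart x q R a‖) ≤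
        (K : ℝ) ^ 2 * x ^ (-ε)) ∧
    -- prime moduli
    (∀ ε : ℝ, 0 < ε → ε ≤ 1 → ∃ x₀ : ℝ, ∀ x : ℝ, x₀ ≤ x → ∀ Q : ℝ, x ^ (1 / 2 - ε / 4) ≤ Q → Q ≤ x →
      pairs (primes Q) (fun q a => bound ε x q < |psiAP x q a - psi x / (Nat.totient q : ℝ)|) ≤
        Q ^ 2 * x ^ (-ε) ∧
      (|psi x - x| ≤ x ^ (1 / 2 + ε) * √Q →
        pairs (primes Q) (fun q a => 4 * bound ε x q < |psiAP x q a - x / (Nat.totient q : ℝ)|) ≤
          Q ^ 2 * x ^ (-ε)) ∧
      (6 * (x ^ (1 / 2 + ε) * √Q) ≤ |psi x - x| →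
        pairs (primes Q) (fun q a => |psiAP x q a - x / (Nat.totient q : ℝ)| ≤ 4 * bound ε x q) ≤
          Q ^ 2 * x ^ (-ε))) := by
  constructor
  · intro ε hε
    obtain ⟨x₀, h0⟩ := Pool.Agent.X25.MG.all_pairs ε hε
    refine ⟨x₀, fun x hx K R hK hKx hxR => ?_⟩
    refine le_trans (le_of_eq ?_) (h0 x hx K R hK hKx hxR)
    unfold pairs bound psiAP smallPart psiChi Pool.Agent.W110.HV.psiAP Pool.Agent.W110.HV.smallPart
      Pool.Agent.W110.HV.psiChi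
    refine sum_congr rfl fun q _ => ?_
    congr 3
  · intro ε hε hε1
    obtain ⟨x1, h1⟩ := Pool.Agent.X25.MG.prime_pairs ε hε hε1
    obtain ⟨x2, h2⟩ := Pool.Agent.X25.MG.prime_pairs_iff ε hε hε1
    refine ⟨max x1 x2, fun x hx Q hQ1 hQ2 => ?_⟩
    have hx1 : x1 ≤ x := (le_max_left _ _).trans hx
    have hx2 : x2 ≤ x := (le_max_right _ _).trans hx
    obtain ⟨h3, h4⟩ := h2 x hx2 Q hQ1 hQ2
    refine ⟨?_, ?_, ?_⟩
    · refine le_trans (le_of_eq ?_) (h1 x hx1 Q hQ1 hQ2)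
      unfold pairs primes bound psi psiAP Pool.Agent.X25.MG.psi Pool.Agent.W110.HV.psiAP
      refine sum_congr rfl fun q _ => ?_
      congr 3
    · intro h
      refine le_trans (le_of_eq ?_) (h3 h)
      unfold pairs primes bound psiAP Pool.Agent.W110.HV.psiAP
      refine sum_congr rfl fun q _ => ?_
      congr 3
    · intro h
      refine le_trans (le_of_eq ?_) (h4 h)
      unfold pairs primes bound psiAP Pool.Agent.W110.HV.psiAP
      refine sum_congr rfl fun q _ => ?_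
      congr 3

end Pool.Agent.Results.MP_848d44_nt.SmallConductorsOnly
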